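import Mathlib
import Pool.Agent.H25.DeltaReg

set_option autoImplicit false

universe u

namespace Pool.Agent.Results.MP_553296_lc.Threshold

open Cardinal Set

/-- `d` is the least coordinate at which `x` and `y` differ. -/
def IsDelta {W : Type u} [LinearOrder W] (x y : W → Bool) (d : W) : Prop :=
  IsLeast {i | x i ≠ y i} d

/-- `Δ`-regressive colourings of pairs from `2^W`. -/
def Regressive {W : Type u} [LinearOrder W] (c : Sym2 (W → Bool) → W) : Prop :=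
  ∀ x y d, IsDelta x y d → (∃ b, b < d) → c s(x, y) < d

/-- Every `Δ`-regressive colouring of `[2^κ]^2` has a monochromatic set of size `θ`. -/
def HasMono (κ θ : Cardinal.{u}) : Prop :=
  ∀ c : Sym2 (κ.ord.ToType → Bool) → κ.ord.ToType, Regressive c →
    ∃ Y : Set (κ.ord.ToType → Bool), #Y = θ ∧ ∃ i, ∀ x ∈ Y, ∀ y ∈ Y, x ≠ y → c s(x, y) = i

theorem result (κ : Cardinal.{u}) (_hreg : κ.IsRegular) (hu : ℵ₀ < κ) :
    HasMono κ 4 ∧ ∀ θ, 5 ≤ θ → θ ≤ ℵ₁ → (HasMono κ θ ↔ (2 : Cardinal.{u}) ^ ℵ₀ < 2 ^ κ) := by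
  refine ⟨fun c hc => Pool.Agent.H25.DeltaReg.four (by simpa using hu) c hc,
    fun θ h5 h1 => ⟨fun h => ?_, fun h c hc => ?_⟩⟩
  · by_contra h2
    obtain ⟨c, hc1, hc2⟩ := Pool.Agent.H25.DeltaReg.neg (W := κ.ord.ToType) (by simpa using hu)
      (by simpa using h2)
    obtain ⟨Y, hY1, hY2⟩ := h c hc1
    have h3 := h5.trans (hY1.ge.trans (hc2 Y hY2))
    norm_num at h3
  · obtain ⟨Y, hY1, i, hY2⟩ := Pool.Agent.H25.DeltaReg.pos κ hu h c hc
    have h3 : θ ≤ #Y := h1.trans (by rw [← succ_aleph0]; exact Order.succ_le_of_lt hY1)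
    obtain ⟨Z, hZ1, hZ2⟩ := le_mk_iff_exists_subset.1 h3
    exact ⟨Z, hZ2, i, fun x hx y hy => hY2 x (hZ1 hx) y (hZ1 hy)⟩

end Pool.Agent.Results.MP_553296_lc.Threshold
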